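import Pool.Agent.J6H55.MA.Stm

/-!
# (MA-GRP) the basic step
-/

set_option autoImplicit false

namespace Pool.Agent.J6H28.MA

open Pool.Agent.J6H55.MA

/-- the sequence of a list -/
def g (a : List Bool) : ℕ → Bool := fun i => a.getD i false

lemma mis_le (x y : ℕ → Bool) (n : ℕ) : mis x y n ≤ n := by
  unfold mis
  calc _ ≤ (Finset.range n).card := Finset.card_filter_le _ _
    _ = n := Finset.card_range n

lemma mis_zero {x y : ℕ → Bool} {n : ℕ} (h : ∀ i < n, x i = y i) : mis x y n = 0 := by
  unfold mis
  rw [Finset.card_eq_zero, Finset.filter_eq_empty_iff]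
  intro i hi
  rw [Finset.mem_range] at hi
  simp [h i hi]

lemma mis_congr {x y x' y' : ℕ → Bool} {n : ℕ} (h : ∀ i < n, x i = x' i) (h' : ∀ i < n, y i = y' i) :
    mis x y n = mis x' y' n := by
  unfold mis
  congr 1
  apply Finset.filter_congr
  intro i hi
  rw [Finset.mem_range] at hi
  rw [h i hi, h' i hi]

lemma mis_add (x y : ℕ → Bool) (n m : ℕ) :
    mis x y (n + m) = mis x y n + mis (fun i => x (n + i)) (fun i => y (n + i)) m := by
  unfold mis
  simp only [Finset.card_filter]
  rw [Finset.sum_range_add]

lemma g_left {p q : List Bool} {i : ℕ} (h : i < p.length) : g (p ++ q) i = g p i := by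
  unfold g
  rw [List.getD_append _ _ _ _ h]

lemma g_right (p q : List Bool) (i : ℕ) : g (p ++ q) (p.length + i) = g q i := by
  unfold g
  rw [List.getD_append_right _ _ _ _ (by omega)]
  congr 1
  omega

/-- splitting a list of words -/
lemma split {M : ℕ} (hM : 1 ≤ M) : ∀ (l : List (List Bool)), (∀ v ∈ l, v.length ≤ M) →
    ∀ t, t ≤ l.flatten.length → ∃ l₁ l₂, l = l₁ ++ l₂ ∧ t ≤ l₁.flatten.length ∧
      l₁.flatten.length < t + M
  | [], _, t, ht => ⟨[], [], rfl, by simpa using ht, by simp; omega⟩
  | v :: l, hl, t, ht => by
    rcases Nat.eq_zero_or_pos t with h0 | h0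
    · exact ⟨[], v :: l, rfl, by simp [h0], by simp; omega⟩
    · rcases Nat.lt_or_ge v.length t with h1 | h1
      · obtain ⟨l₁, l₂, e, h2, h3⟩ := split hM l (fun w hw => hl w (List.mem_cons_of_mem _ hw))
          (t - v.length) (by simp only [List.flatten_cons, List.length_append] at ht; omega)
        refine ⟨v :: l₁, l₂, by rw [e]; rfl, ?_, ?_⟩
        · simp only [List.flatten_cons, List.length_append]; omega
        · simp only [List.flatten_cons, List.length_append]; omega
      · refine ⟨[v], l, rfl, by simpa using h1, ?_⟩
        have := hl v List.mem_cons_self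
        simp only [List.flatten_cons, List.flatten_nil, List.append_nil]
        omega

lemma cat_append {W : Set (List Bool)} {s t : List Bool} (hs : s ∈ Cat W) (ht : t ∈ Cat W) :
    s ++ t ∈ Cat W := by
  obtain ⟨l, hl, rfl⟩ := hs
  obtain ⟨m, hm, rfl⟩ := ht
  refine ⟨l ++ m, ?_, by rw [List.flatten_append]⟩
  intro v hv
  rcases List.mem_append.1 hv with h | h
  · exact hl v h
  · exact hm v h

lemma cat_cons {W : Set (List Bool)} {w s : List Bool} (hw : w ∈ W) (hs : s ∈ Cat W) :
    w ++ s ∈ Cat W := by
  obtain ⟨l, hl, rfl⟩ := hs
  refine ⟨w :: l, ?_, by rw [List.flatten_cons]⟩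
  intro v hv
  rcases List.mem_cons.1 hv with h | h
  · rw [h]; exact hw
  · exact hl v h

lemma key {W : Set (List Bool)} {K M : ℕ} (hW : Lev W K M) {F : ℕ}
    (hF : ∀ n, F ≤ n → ∃ s ∈ Cat W, s.length = n) {u : List Bool} {T : ℕ}
    (hT : 2 * M + F ≤ T) {W' : Set (List Bool)}
    (hW' : W' = {w | ∃ s ∈ Cat W, T ≤ s.length ∧ s.length ≤ 2 * T ∧ w = s ++ u}) {F' : ℕ}
    (hF' : ∀ n, F' ≤ n → ∃ s ∈ Cat W', s.length = n) {C : ℕ}
    (hC : C = F' + T + 2 * M + u.length + F) :
    ∀ (k : ℕ) (l : List (List Bool)), l.length = k → (∀ v ∈ l, v ∈ W) → F' ≤ l.flatten.length →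
      ∃ s' ∈ Cat W', s'.length = l.flatten.length ∧
        (C ≤ l.flatten.length → ∀ i < T, g l.flatten i = g s' i) ∧
        ∀ N, N + C ≤ l.flatten.length →
          T * mis (g l.flatten) (g s') N ≤ (u.length + F + M) * N := by
  have hM : 1 ≤ M := by
    obtain ⟨v, hv, _⟩ := hW.two
    have := hW.pos
    have := hW.lo v hv
    have := hW.hi v hv
    omega
  intro k
  induction k using Nat.strong_induction_on with
  | _ k ih =>
    intro l hk hl hP
    rcases Nat.lt_or_ge l.flatten.length C with hlt | hge
    · obtain ⟨s', hs', e⟩ := hF' _ hP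
      refine ⟨s', hs', e, fun h => ?_, fun N hN => ?_⟩
      · omega
      · omega
    · obtain ⟨l₁, m, e₁, h1, h2⟩ := split hM l (fun v hv => hW.hi v (hl v hv)) T (by omega)
      have hl₁ : ∀ v ∈ l₁, v ∈ W := fun v hv => hl v (by rw [e₁]; exact List.mem_append_left _ hv)
      have hm : ∀ v ∈ m, v ∈ W := fun v hv => hl v (by rw [e₁]; exact List.mem_append_right _ hv)
      have elen : l.flatten.length = l₁.flatten.length + m.flatten.length := by
        rw [e₁, List.flatten_append, List.length_append]
      obtain ⟨l₂, l₃, e₂, h3, h4⟩ := split hM m (fun v hv => hW.hi v (hm v hv)) (u.length + F)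
        (by omega)
      have hl₃ : ∀ v ∈ l₃, v ∈ W := fun v hv => hm v (by rw [e₂]; exact List.mem_append_right _ hv)
      have elen2 : m.flatten.length = l₂.flatten.length + l₃.flatten.length := by
        rw [e₂, List.flatten_append, List.length_append]
      obtain ⟨f, hf, ef⟩ := hF (l₂.flatten.length - u.length) (by omega)
      have hlen3 : l₃.length < k := by
        have : 0 < l₁.length := by
          rcases Nat.eq_zero_or_pos l₁.length with h | h
          · rw [List.length_eq_zero_iff] at h
            rw [h] at h1
            simp at h1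
            omega
          · exact h
        rw [← hk, e₁, e₂]
        simp only [List.length_append]
        omega
      obtain ⟨s₃, hs₃, es₃, -, hmis⟩ := ih _ hlen3 l₃ rfl hl₃ (by omega)
      have hfirst : (l₁.flatten ++ f) ++ u ∈ W' := by
        rw [hW']
        refine ⟨l₁.flatten ++ f, cat_append ⟨l₁, hl₁, rfl⟩ hf, ?_, ?_, rfl⟩
        · rw [List.length_append]; omega
        · rw [List.length_append]; omega
      have efirst : ((l₁.flatten ++ f) ++ u).length = l₁.flatten.length + l₂.flatten.length := by
        simp only [List.length_append]; omega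
      have eL : l.flatten = l₁.flatten ++ (l₂.flatten ++ l₃.flatten) := by
        rw [e₁, e₂, List.flatten_append, List.flatten_append]
      have eL' : l.flatten = (l₁.flatten ++ l₂.flatten) ++ l₃.flatten := by
        rw [eL, List.append_assoc]
      have es' : ((l₁.flatten ++ f) ++ u) ++ s₃ = l₁.flatten ++ (f ++ u ++ s₃) := by
        simp only [List.append_assoc]
      have agree : ∀ i < l₁.flatten.length, g l.flatten i = g (((l₁.flatten ++ f) ++ u) ++ s₃) i := by
        intro i hi
        rw [eL, es', g_left hi, g_left hi]
      refine ⟨((l₁.flatten ++ f) ++ u) ++ s₃, cat_cons hfirst hs₃, ?_, ?_, ?_⟩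
      · rw [List.length_append, efirst, es₃]; omega
      · intro _ i hi
        exact agree i (by omega)
      · intro N hN
        set y := g (((l₁.flatten ++ f) ++ u) ++ s₃) with hy
        set A := l₁.flatten.length with hA
        set B := l₂.flatten.length with hB
        rcases Nat.lt_or_ge A N with hAN | hAN
        · have hBU : B ≤ u.length + F + M := by omega
          rcases Nat.lt_or_ge N (A + B) with hNB | hNB
          · have e : N = A + (N - A) := by omega
            have h5 : mis (g l.flatten) y N ≤ B := by
              rw [e, mis_add, mis_zero agree, zero_add]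
              exact (mis_le _ _ _).trans (by omega)
            calc T * mis (g l.flatten) y N ≤ N * (u.length + F + M) :=
                  Nat.mul_le_mul (by omega) (h5.trans hBU)
              _ = (u.length + F + M) * N := Nat.mul_comm _ _
          · have e : N = A + (B + (N - A - B)) := by omega
            have h6 : mis (fun i => g l.flatten (A + (B + i))) (fun i => y (A + (B + i)))
                (N - A - B) = mis (g l₃.flatten) (g s₃) (N - A - B) := by
              apply mis_congr
              · intro i _
                have := g_right (l₁.flatten ++ l₂.flatten) l₃.flatten i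
                rw [← eL', List.length_append] at this
                rw [← this, ← hA, ← hB, Nat.add_assoc]
              · intro i _
                have := g_right ((l₁.flatten ++ f) ++ u) s₃ i
                rw [efirst] at this
                rw [← this, Nat.add_assoc]
            have h7 : mis (g l.flatten) y N ≤ B + mis (g l₃.flatten) (g s₃) (N - A - B) := by
              rw [e, mis_add, mis_zero agree, zero_add, mis_add]
              have h8 := mis_le (fun i => g l.flatten (A + i)) (fun i => y (A + i)) B
              have e2 : A + (B + (N - A - B)) - A - B = N - A - B := by omega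
              rw [e2]
              omega
            have h10 := hmis (N - A - B) (by omega)
            calc T * mis (g l.flatten) y N
                ≤ T * (B + mis (g l₃.flatten) (g s₃) (N - A - B)) := Nat.mul_le_mul_left _ h7
              _ = T * B + T * mis (g l₃.flatten) (g s₃) (N - A - B) := Nat.mul_add _ _ _
              _ ≤ A * (u.length + F + M) + (u.length + F + M) * (N - A - B) :=
                  Nat.add_le_add (Nat.mul_le_mul (by omega) hBU) h10
              _ = (u.length + F + M) * (A + (N - A - B)) := by ring
              _ ≤ (u.length + F + M) * N := Nat.mul_le_mul_left _ (by omega)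
        · rw [mis_zero (fun i hi => agree i (by omega))]
          simp

lemma win_length (x : ℕ → Bool) (i n : ℕ) : (win x i n).length = n := by simp [win]

lemma g_win (x : ℕ → Bool) {P i : ℕ} (h : i < P) : g (win x 0 P) i = x i := by
  unfold g win
  rw [List.getD_eq_getElem _ _ (by simpa using h)]
  simp

lemma win_g (s : List Bool) {P : ℕ} (h : s.length = P) : win (g s) 0 P = s := by
  apply List.ext_getElem
  · simp [win, h]
  · intro i h1 h2
    simp only [win, List.getElem_map, List.getElem_range, zero_add, g]
    exact List.getD_eq_getElem _ _ h2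

/-- **(MA-GRP)** -/
theorem grp : S_grp := by
  intro W K M hW F hF u _ T hT W' hW' F' hF'
  refine ⟨F' + T + 2 * M + u.length + F, ?_⟩
  intro x P hP hx
  obtain ⟨l, hl, e⟩ := hx
  have hlen : l.flatten.length = P := by rw [← e, win_length]
  obtain ⟨s', hs', es', h1, h2⟩ := key hW hF hT hW' hF' rfl l.length l rfl hl (by omega)
  refine ⟨g s', ?_, ?_, ?_⟩
  · rw [win_g s' (by omega)]; exact hs'
  · intro i hi
    rw [← h1 (by omega) i hi, ← e, g_win x (by omega)]
  · intro N hN
    have := h2 N (by omega)
    rw [← e] at this
    rwa [mis_congr (fun i hi => (g_win x (P := P) (show i < P by omega)).symm) (fun i _ => rfl)]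

end Pool.Agent.J6H28.MA
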